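import Pool.Agent.helper98.P2F.SpecC

/-!
# Project p2f: row CVED (copy of VED, helper20, completion version): at the diagonal times all limits at class places are inner
-/

set_option autoImplicit false

open Complex Metric Set Filter Topology MeasureTheory
open Pool.Agent.helper98.ILF
open WP (it)
open HY (UD T S hd UN RM)
open PM
open P2 (SS FL FLS CLS FR TL)
open PL (TP LO PZ GJ INR PG DK ht tr DI CY hG cv hv cm BS DQ)
open P2B (VE)

noncomputable section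

namespace P2F

/-- one line: the limit at the class places `y j` on the line `H j`, time `w j ≤ T j`, target level `H j - w j ≥ j`. -/
theorem CVED_core (hKO0 : V3.KO0_stmt) (hMOB : HY.MOB_stmt) (hFRS : P2.FRS_stmt) (hTLS : P2.TLS_stmt) (hMDC : P2A.MDC_stmt)
    (hDNI : PL.DNI_stmt) (hSTL : STL_stmt) (hDQS : DQS_stmt)
    (f : Polynomial ℂ) (R : ℝ) (hSS : SS f R) (P : ℕ → ℂ → ℕ → Prop)
    (U : Ultrafilter ℕ) (hU : (U : Filter ℕ) ≤ atTop) (Q : ℕ → ℂ → ℕ → ℝ → Prop) (a : ℝ) (ha : 0 < a) (e : ℕ → ℝ) (T : ℕ → ℕ) (hD : DIC f R P Q U a e T)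
    (y : ℕ → ℂ) (H w : ℕ → ℕ) (hy : ∀ j, y j ∈ JJ f)
    (hP : ∀ᶠ j in (U : Filter ℕ), j ≤ H j - w j ∧ w j ≤ H j ∧ w j ≤ T j ∧ P j (y j) (H j))
    (χ G : ℂ → ℂ) (hFR : FR f R y U H χ) (hTL : TL f R y U H χ w G) :
    ∃ (p : ℂ) (φ : ℂ → ℂ), RM (χ '' UD) p φ ∧ INR φ G := by
  obtain ⟨hRM, hDD, -, hop, -, -, -, -⟩ := hFRS f R hSS y hy U H χ hFR
  obtain ⟨gd, g0, gm, -, glo, -⟩ := hTLS f R hSS y hy U H χ hFR w G hTL
  obtain ⟨m1, m2⟩ := hMDC f R hSS y hy U H χ hFR w G hTL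
  -- the closed condition at finite level
  have hstr : ∀ η r : ℝ, 0 < η → r < 1 → ∀ᶠ j in (U : Filter ℕ), STR (FC f R (H j - w j) (w j) (y j) (it f (w j) (y j))) η r := by
    intro η r hη hr
    filter_upwards [hD.str η r hη hr, hP] with j h1 h2
    apply h1 _ _ _ h2.1 h2.2.2.1
    rw [Nat.sub_add_cancel h2.2.1]
    exact h2.2.2.2
  obtain ⟨v₁, v₂, hv1, hv2, hineq⟩ := hSTL U (fun j => FC f R (H j - w j) (w j) (y j) (it f (w j) (y j))) (fun u => G (χ u)) hU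
    (m1.mono fun j hj => hj.1) m2 hstr
  have hχmap : MapsTo χ UD (χ '' UD) := mapsTo_image _ _
  have hPd : DifferentiableOn ℂ (fun u => G (χ u)) UD := gd.comp hFR.dif hχmap
  have hPm : MapsTo (fun u => G (χ u)) UD UD := fun u hu => gm (hχmap hu)
  -- the limit is not constant
  have hUDo : IsOpen UD := by
    show IsOpen (ball (0 : ℂ) 1)
    exact isOpen_ball
  have hlo : ∀ᶠ j in (U : Filter ℕ), LO f R (y j) a (H j - w j) (w j) := by
    filter_upwards [hD.sct, hP] with j h1 h2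
    apply h1.los _ h2.2.2.1 _ h2.1
    rw [Nat.sub_add_cancel h2.2.1]
    exact h2.2.2.2
  obtain ⟨z, hz, -, hz2⟩ := glo a ha hlo
  have hdz : deriv G z ≠ 0 := by
    intro h0
    have : hG (χ '' UD) G z = 0 := by
      unfold PL.hG
      rw [h0, norm_zero, zero_mul, zero_div]
    linarith
  obtain ⟨u, hu, rfl⟩ := hz
  have hne : ∃ u ∈ UD, deriv (fun u => G (χ u)) u ≠ 0 := by
    refine ⟨u, hu, ?_⟩
    have e1 : HasDerivAt χ (deriv χ u) u := ((hFR.dif u hu).differentiableAt (hUDo.mem_nhds hu)).hasDerivAt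
    have e2 : HasDerivAt G (deriv G (χ u)) (χ u) := ((gd _ (hχmap hu)).differentiableAt (hop.mem_nhds (hχmap hu))).hasDerivAt
    have e3 := e2.comp u e1
    have e4 : deriv (fun u => G (χ u)) u = deriv G (χ u) * deriv χ u := e3.deriv
    rw [e4]
    exact mul_ne_zero hdz (hKO0 χ UD hUDo hFR.dif hFR.inj u hu)
  obtain ⟨u₀, hu₀, hDQ⟩ := hDQS (fun u => G (χ u)) v₁ v₂ hPd hPm hne hv1 hv2 hineq
  obtain ⟨b1, b2, b3, b4, b5, b6, b7, -⟩ := hMOB u₀ hu₀
  have hSmap : MapsTo (S u₀) UD UD := fun x hx => (b1 x hx).2.1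
  refine ⟨χ u₀, fun x => χ (S u₀ x), ⟨hRM.dif.comp b5 hSmap, ?_, ?_, ?_⟩, ?_⟩
  · intro x hx x' hx' hxx
    exact b7 hx hx' (hRM.inj (hSmap hx) (hSmap hx') hxx)
  · apply Subset.antisymm
    · rintro _ ⟨x, hx, rfl⟩
      exact mem_image_of_mem _ (hSmap hx)
    · rintro _ ⟨x, hx, rfl⟩
      refine ⟨HY.T u₀ x, (b1 x hx).1, ?_⟩
      show χ (S u₀ (HY.T u₀ x)) = χ x
      rw [(b1 x hx).2.2.1]
  · show χ (S u₀ 0) = χ u₀
    rw [b3]
  · apply hDNI
    · exact hPd.comp b5 hSmap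
    · exact hPm.comp hSmap
    · exact hDQ

theorem CVED (hKO0 : V3.KO0_stmt) (hMOB : HY.MOB_stmt) (hFRS : P2.FRS_stmt) (hTLS : P2.TLS_stmt) (hMDC : P2A.MDC_stmt)
    (hDNI : PL.DNI_stmt) (hSTL : STL_stmt) (hDQS : DQS_stmt) : CVED_stmt := by
  intro f R hSS μ x₀ _ P hCLS U hU Q a ha e T hD y n w hy hP
  refine ⟨?_, ?_, ?_, ?_, ?_, ?_⟩
  · exact hCLS.fl U (fun j => j) (fun j => n j + w j) y hU (tendsto_id.mono_left hU) (hP.mono fun j hj => hj.2.2)
  · intro w' hw'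
    apply hCLS.fl U (fun j => j) (fun j => j + w' j) y hU (tendsto_id.mono_left hU)
    filter_upwards [hP, hw'] with j h1 h2
    exact hCLS.up _ _ _ _ h1.2.2 (by omega) (by omega)
  · exact hP.mono fun j hj => hj.1
  · filter_upwards [hP, hD.sct] with j h1 h2
    intro n' hn' v hv hle
    exact h2.los v (by omega) n' hn' _ (hCLS.up _ _ _ _ h1.2.2 (by omega) hle)
  · intro χ G w' hFR hw' hTL
    apply CVED_core hKO0 hMOB hFRS hTLS hMDC hDNI hSTL hDQS f R hSS P U hU Q a ha e T hD y _ w' hy ?_ χ G hFR hTL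
    filter_upwards [hP, hw'] with j h1 h2
    exact ⟨by omega, by omega, by omega, h1.2.2⟩
  · intro χ G w' hFR hw' hTL
    apply CVED_core hKO0 hMOB hFRS hTLS hMDC hDNI hSTL hDQS f R hSS P U hU Q a ha e T hD y _ w' hy ?_ χ G hFR hTL
    filter_upwards [hP, hw'] with j h1 h2
    exact ⟨by omega, by omega, by omega, hCLS.up _ _ _ _ h1.2.2 (by omega) (by omega)⟩

end P2F
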